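import Pool.Agent.N825.WP.Lev
import Pool.Agent.N825.WI.PP
import Pool.Agent.N825.WI.OVER
import Pool.Agent.N825.WI.NORM
import Pool.Agent.N825.WI.PAR
import Pool.Agent.N825.WI.RED
import Pool.Agent.N825.WP.SPR
import Pool.Agent.N825.WP.LAU0
import Pool.Agent.N825.WP.LAU1
import Pool.Agent.N825.WP.LAU2
import Pool.Agent.N825.WP.REALS
import Pool.Agent.N825.WP.P4a
import Pool.Agent.N825.WP.P4b
import Pool.Agent.N825.WP.P4c
import Pool.Agent.N825.WP.HENa
import Pool.Agent.N825.WP.HENb
import Pool.Agent.N825.WP.HENc
import Pool.Agent.N825.WP.HEN1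
import Pool.Agent.N825.WP.HEN2
import Pool.Agent.N825.WP.GEN
import Pool.Agent.N825.WP.TR
import Pool.Agent.N825.WP.VDM
import Pool.Agent.N825.WP.NSQ
import Pool.Agent.N825.WP.STEPa
import Pool.Agent.N825.WP.STEPb
import Pool.Agent.N825.WP.SIGN1
import Pool.Agent.N825.WP.SIGN
import Pool.Agent.N825.WP.EMB
import Pool.Agent.N825.WP.STEPc2
import Pool.Agent.N825.WP.STEPR
import Pool.Agent.N825.WP.UNI1
import Pool.Agent.N825.WP.UNI2

set_option autoImplicit false

/-!
# A field with `w`-invariant at least three and Pythagoras number at most four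

A quadratic form over a field `K` of characteristic not two is weakly isotropic if `n × φ` is isotropic
for some `n`, and minimal weakly isotropic if moreover no proper subform (orthogonal summand of smaller
dimension) is weakly isotropic; `w(K)` is the supremum of the dimensions of the regular minimal weakly
isotropic forms.  The Pythagoras number `p(K)` is the least `n ≥ 1` such that all sums of squares are
sums of `n` squares.

Theorem: there is a countable real field `F` such that `K = F(X)` has `w(K) ≥ 3` and `p(K) ≤ 4`.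

Idea of the proof.  (1) Suppose that in each finite extension of the real field `F` in which `-1` is a sum
of squares, it is a sum of two squares (condition A).  Then all sums of squares in `F(X)` are sums of four
squares (by induction on the degree, as in the theorem of Landau and Pourchet).  (2) Let `α` be in `F` and
`γ = 3 α + 3`.  If for all `m` the forms `⟨α, -α γ⟩ ⊥ m × ⟨1⟩` and `⟨-γ, α, α⟩ ⊥ m × ⟨1⟩` are anisotropic over
`F` (hence, by Springer, over all extensions of odd degree), then `φ = ⟨α (X² + 1), 1, -γ⟩` is minimal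
weakly isotropic over `F(X)`: a hyperplane `∑ w_i X_i = 0` is reduced at a place of odd residue degree at
which the normalized orders of `w₀` and `w₁` differ; such a place exists by the parity of the norm.  (3) The
two conditions hold for Laurent series fields `k((z))`, the first for `α = z`, the second for `α = z⁻¹`, if `k` is
real and `3` is not represented by `⟨1, 1⟩`.  A field `F` with both of them and with condition A is obtained by
amalgamation: if `M₁`, `M₂` are uncountable fields with condition A and `E` is a countable field embedded in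
both, then there is a countable field `F` between `E` and both `M₁` and `M₂` with condition A.  (Solutions
of `a² + b² = -1` modulo a polynomial `f` are rotated by a generic rotation; the generic solutions over
`M₁` and over `M₂` generate isomorphic extensions of `E`.)  The same amalgamation of the reals and the
3-adic numbers gives `k`, and condition A passes from `k` to `k((z))`, by henselianity.
-/

namespace Pool.Agent.Results.MP_14789b_nt.WInvariantThreePythagorasFour

open Pool.Agent.N825.WI Pool.Agent.N825.WP

/-- The quadratic form `φ` is weakly isotropic: the orthogonal sum `n × φ` of `n` copies of `φ` is isotropic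
for some `n`. -/
def WeaklyIsotropic {K V : Type} [Field K] [AddCommGroup V] [Module K V]
    (φ : QuadraticForm K V) : Prop :=
  ∃ n : ℕ, ¬ (QuadraticMap.pi fun _ : Fin n => φ).Anisotropic

/-- `ψ` is a subform of `φ`: `φ` is isometric to `ψ ⊥ χ` for some (finite-dimensional) form `χ`. -/
def IsSubform {K V W : Type} [Field K] [AddCommGroup V] [Module K V] [AddCommGroup W] [Module K W]
    (ψ : QuadraticForm K W) (φ : QuadraticForm K V) : Prop :=
  ∃ (U : Type) (_ : AddCommGroup U) (_ : Module K U) (_ : FiniteDimensional K U)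
    (χ : QuadraticForm K U), Nonempty (φ.IsometryEquiv (ψ.prod χ))

/-- `φ` is minimal weakly isotropic: it is weakly isotropic, and no proper subform is. -/
def MinimalWeaklyIsotropic {K V : Type} [Field K] [AddCommGroup V] [Module K V]
    (φ : QuadraticForm K V) : Prop :=
  WeaklyIsotropic φ ∧
    ∀ (W : Type) [AddCommGroup W] [Module K W] [FiniteDimensional K W] (ψ : QuadraticForm K W),
      IsSubform ψ φ → Module.finrank K W < Module.finrank K V → ¬ WeaklyIsotropic ψ

/-- The `w`-invariant: the supremum of the dimensions of the (regular, finite-dimensional) minimal weakly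
isotropic forms over `K`. -/
noncomputable def wInvariant (K : Type) [Field K] : ℕ∞ :=
  sSup {d : ℕ∞ | ∃ (V : Type) (_ : AddCommGroup V) (_ : Module K V) (_ : FiniteDimensional K V)
    (φ : QuadraticForm K V), (QuadraticMap.polarBilin φ).Nondegenerate ∧
      MinimalWeaklyIsotropic φ ∧ d = Module.finrank K V}

/-- The Pythagoras number: the least `n ≥ 1` such that each sum of squares in `K` is a sum of `n`
squares (`∞` if there is none). -/
noncomputable def pythagorasNumber (K : Type) [Field K] : ℕ∞ :=
  sInf {d : ℕ∞ | ∃ n : ℕ, 1 ≤ n ∧ (∀ x : K, IsSumSq x → ∃ y : Fin n → K, x = ∑ i, y i ^ 2) ∧ d = n}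

section

variable {K : Type} [Field K] {q : Fin 3 → K}

/-- A weakly isotropic form of dimension three without weakly isotropic hyperplanes. -/
theorem w_ge (h2 : (2 : K) ≠ 0) (hq : ∀ i, q i ≠ 0)
    (hwi : ∃ (n : ℕ) (y : Fin n → Fin 3 → K), y ≠ 0 ∧ ∑ k, ∑ i, q i * y k i ^ 2 = 0)
    (hmin : ∀ w : Fin 3 → K, w ≠ 0 → ¬ WIker q w) : 3 ≤ wInvariant K := by
  set φ : QuadraticForm K (Fin 3 → K) := QuadraticMap.weightedSumSquares K q with hφd
  have hφ : ∀ x : Fin 3 → K, φ x = ∑ i, q i * x i ^ 2 := by
    intro x
    rw [hφd, QuadraticMap.weightedSumSquares_apply]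
    refine Finset.sum_congr rfl fun i _ => ?_
    rw [smul_eq_mul, pow_two]
  -- regularity
  have hpol : ∀ (x : Fin 3 → K) (i : Fin 3),
      QuadraticMap.polarBilin φ x (Pi.single i 1) = 2 * q i * x i := by
    intro x i
    rw [QuadraticMap.polarBilin_apply_apply, QuadraticMap.polar, hφ, hφ, hφ,
      ← Finset.sum_sub_distrib, ← Finset.sum_sub_distrib]
    rw [Finset.sum_eq_single i]
    · simp; ring
    · intro j _ hj
      rw [Pi.add_apply, Pi.single_eq_of_ne hj]; ring
    · intro h; exact absurd (Finset.mem_univ i) h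
  have hsep : ∀ x : Fin 3 → K, (∀ y, QuadraticMap.polarBilin φ x y = 0) → x = 0 := by
    intro x hx
    funext i
    have := hx (Pi.single i 1)
    rw [hpol] at this
    exact (mul_eq_zero.1 this).resolve_left (mul_ne_zero h2 (hq i))
  have hreg : (QuadraticMap.polarBilin φ).Nondegenerate := by
    refine ⟨hsep, ?_⟩
    intro y hy
    refine hsep y fun x => ?_
    have := hy x
    rw [QuadraticMap.polarBilin_apply_apply] at this ⊢
    rw [QuadraticMap.polar_comm]; exact this
  -- weak isotropy
  have hwi' : WeaklyIsotropic φ := by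
    obtain ⟨n, y, hy, hs⟩ := hwi
    refine ⟨n, ?_⟩
    rw [QuadraticMap.not_anisotropic_iff_exists]
    refine ⟨y, hy, ?_⟩
    rw [QuadraticMap.pi_apply, ← hs]
    exact Finset.sum_congr rfl fun k _ => hφ _
  -- minimality
  have hmin' : MinimalWeaklyIsotropic φ := by
    refine ⟨hwi', ?_⟩
    intro W _ _ _ ψ hsub hdim hψ
    obtain ⟨U, _, _, _, χ, ⟨e⟩⟩ := hsub
    obtain ⟨n, hn⟩ := hψ
    rw [QuadraticMap.not_anisotropic_iff_exists] at hn
    obtain ⟨x, hx, hx0⟩ := hn
    -- the embedding of `W`
    set j : W →ₗ[K] (Fin 3 → K) := e.symm.toLinearEquiv.toLinearMap ∘ₗ LinearMap.inl K W U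
      with hj
    have hjinj : Function.Injective j := by
      rw [hj, LinearMap.coe_comp]
      exact e.symm.toLinearEquiv.injective.comp LinearMap.inl_injective
    have hjφ : ∀ v, φ (j v) = ψ v := by
      intro v
      have := e.symm.map_app (v, 0)
      rw [QuadraticMap.prod_apply, map_zero, add_zero] at this
      exact this
    have hlt : LinearMap.range j < ⊤ := by
      refine lt_top_iff_ne_top.2 fun htop => ?_
      have h1 := LinearMap.finrank_range_of_inj hjinj
      rw [htop, finrank_top] at h1
      omega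
    obtain ⟨g, hg, hgle⟩ := Submodule.exists_le_ker_of_lt_top _ hlt
    set w : Fin 3 → K := fun i => g (Pi.single i 1) with hw
    have hgw : ∀ v : Fin 3 → K, g v = ∑ i, w i * v i := by
      intro v
      conv_lhs => rw [← Finset.univ_sum_single v]
      rw [map_sum]
      refine Finset.sum_congr rfl fun i _ => ?_
      have : (Pi.single i (v i) : Fin 3 → K) = v i • Pi.single i 1 := by
        rw [← Pi.single_smul, smul_eq_mul, mul_one]
      rw [this, map_smul, smul_eq_mul, mul_comm]
    have hw0 : w ≠ 0 := by
      intro h0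
      apply hg
      refine LinearMap.ext fun v => ?_
      rw [hgw v, h0]
      simp
    refine hmin w hw0 ⟨n, fun k => j (x k), ?_, ?_, ?_⟩
    · intro h0
      apply hx
      funext k
      have h6 : j (x k) = 0 := congrFun h0 k
      exact hjinj (h6.trans (map_zero j).symm)
    · intro k
      rw [← hgw]
      exact hgle ⟨x k, rfl⟩
    · have h5 : ∑ k, φ (j (x k)) = 0 := by
        rw [QuadraticMap.pi_apply] at hx0
        rw [← hx0]
        exact Finset.sum_congr rfl fun k _ => hjφ _
      rw [← h5]
      refine Finset.sum_congr rfl fun k _ => ?_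
      rw [hφ]
  refine le_sSup ⟨Fin 3 → K, inferInstance, inferInstance, inferInstance, φ, hreg, hmin', ?_⟩
  simp

end

/-- The general criterion. -/
theorem main (hS : S_SPR) (hR : S_RED) (hO : S_OVER) (hP : S_PAR) (hPa : S_P4a) (hPb : S_P4b)
    (hPc : S_P4c) {F : Type} [Field F] {α : F} (hA : CondA F) (h2 : C2 F α) (h3 : C3 F α) :
    (∀ (n : ℕ) (x : Fin n → F), ∑ i, x i ^ 2 = 0 → ∀ i, x i = 0) ∧
      (2 : RatFunc F) ≠ 0 ∧ 3 ≤ wInvariant (RatFunc F) ∧ pythagorasNumber (RatFunc F) ≤ 4 := by
  have hF := h2.real
  have hc : CharZero F := hF.charZero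
  have hcK : CharZero (RatFunc F) := charZero_of_injective_algebraMap
    (algebraMap F (RatFunc F)).injective
  have hα : (RatFunc.C α : RatFunc F) ≠ 0 := (map_ne_zero _).2 h2.ne
  have hγ : (RatFunc.C (3 * α + 3) : RatFunc F) ≠ 0 := (map_ne_zero _).2 h2.ne'
  have hcore := core hS hR hO hP h2 h3 (RatFunc F) (RingHom.id _) ⟨Module.Finite.self _, by
    rw [show @Module.finrank (RatFunc F) (RatFunc F) _ _
      ((RingHom.id (RatFunc F)).toAlgebra).toModule = 1 from Module.finrank_self _]
    exact odd_one⟩
  simp only [RingHom.id_apply] at hcore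
  have hX1 : (RatFunc.X : RatFunc F) ^ 2 + 1 ≠ 0 := by
    intro h0
    have h1 : algebraMap (Polynomial F) (RatFunc F) (Polynomial.X ^ 2 + 1) = 0 := by
      rw [map_add, map_pow, map_one, RatFunc.algebraMap_X]; exact h0
    have h5 : (Polynomial.X ^ 2 + 1 : Polynomial F) = 0 :=
      (map_eq_zero_iff _ (IsFractionRing.injective (Polynomial F) (RatFunc F))).1 h1
    have h6 := congrArg (Polynomial.eval 0) h5
    simp at h6
  refine ⟨hF, two_ne_zero, ?_, ?_⟩
  · refine w_ge (q := ![RatFunc.C α * (RatFunc.X ^ 2 + 1), 1, -RatFunc.C (3 * α + 3)])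
      two_ne_zero ?_ ?_ hcore
    · intro i
      fin_cases i
      · exact mul_ne_zero hα hX1
      · exact one_ne_zero
      · exact neg_ne_zero.2 hγ
    · refine ⟨6, fun k => ![(![RatFunc.X, RatFunc.X, RatFunc.X, 1, 1, 1] : Fin 6 → RatFunc F) k /
          (RatFunc.X ^ 2 + 1), (![1, 1, 1, 0, 0, 0] : Fin 6 → RatFunc F) k,
          (![1, 0, 0, 0, 0, 0] : Fin 6 → RatFunc F) k], ?_, ?_⟩
      · intro h
        have := congrFun (congrFun h 0) 2
        simp at this
      · have hC : (RatFunc.C (3 * α + 3) : RatFunc F) = 3 * RatFunc.C α + 3 := by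
          rw [map_add, map_mul, map_ofNat]
        rw [hC]
        simp only [Fin.sum_univ_succ, Fin.sum_univ_zero]
        simp [Fin.succ]
        field_simp
        ring
  · refine sInf_le ⟨4, by norm_num, fun x hx => ?_, by norm_num⟩
    obtain ⟨a, b, c, d, hx4⟩ := hPc F hF (hPa F hF hA) (hPb F hF hA (hPa F hF hA)) x hx
    refine ⟨![a, b, c, d], ?_⟩
    rw [hx4]
    simp [Fin.sum_univ_succ]
    ring

/-- **A field with `w`-invariant at least three and Pythagoras number at most four.**  There is a
countable field `F`, in which sums of squares vanish only trivially, such that the rational function field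
`K = F(X)` (of characteristic not two) satisfies `w(K) ≥ 3` and `p(K) ≤ 4`. -/
theorem result : ∃ (F : Type) (_ : Field F), Countable F ∧
    (∀ (n : ℕ) (x : Fin n → F), ∑ i, x i ^ 2 = 0 → ∀ i, x i = 0) ∧
    (2 : RatFunc F) ≠ 0 ∧ 3 ≤ wInvariant (RatFunc F) ∧ pythagorasNumber (RatFunc F) ≤ 4 := by
  have hSI : S_SIGN := t_SIGN t_SIGN1 t_TR t_VDM t_NSQ
  have hst : S_STEP := step t_GEN t_TR t_VDM hSI t_EMB t_STEPa t_STEPb STEPc2.t_STEPc
  have hHen : ∀ (k : Type) [Field k] [CharZero k], CondA k → CondA (LaurentSeries k) :=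
    t_HEN2 t_HENa t_HENb t_HENc t_HEN1
  obtain ⟨F, _, α, hFc, hA, h2, h3⟩ := levels t_UNI1 t_UNI2 (t_STEPR hst) t_PRIM t_REALS hHen
    t_LAU0 t_LAU1 LAU2.t_LAU2
  exact ⟨F, inferInstance, hFc, main t_SPR red (over_main pp) (par (normParity pp)) t_P4a t_P4b
    t_P4c hA h2 h3⟩

end Pool.Agent.Results.MP_14789b_nt.WInvariantThreePythagorasFour
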